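import Pool.Agent.Helper37.TwoCompDefs
import Pool.Agent.Helper37.TwoCompSmall

namespace Pool.Agent.Results.MP_5e9fbd_co.SmallN

open Helper37.TwoComp

/-- For `n = 4` and `n = 5` there is a family of graphs on `n` labelled vertices, any two distinct
members of which intersect in a graph with at most two components, that has more than
`(n + 1) / 2 ^ n * 2 ^ (n choose 2)` members. -/
theorem result : ∀ n ∈ ({4, 5} : Finset ℕ), ∃ F : Finset (SimpleGraph (Fin n)),
    MeetInAtMostTwo F ∧ ((n : ℝ) + 1) / 2 ^ n * 2 ^ (n.choose 2) < F.card :=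
  fun n hn => main n hn

end Pool.Agent.Results.MP_5e9fbd_co.SmallN
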